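/-
helper75: limits and counting along ultrafilters on an arbitrary parameter type
(copies of the library's TB11 and TB14, which are for the parameter type `ℝ`).
-/
import Pool.Graph.R_seed8.H919S.Stmts

set_option autoImplicit false

namespace Pool.Agent.H75Ten

open Finset Filter Topology
open Pool.Agent.H919S

theorem leg {Q : Type} (l : Ultrafilter Q) (N : ℕ) (u : Q → ℕ → ℂ)
    (h0 : ∀ᶠ ε in (l : Filter Q), ∀ i, N < i → u ε i = 0)
    (h1 : ∀ᶠ ε in (l : Filter Q), ∃ i, u ε i ≠ 0) :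
    ∃ (m : ℕ) (z : ℕ → ℂ), m ≤ N ∧ z m = 1 ∧ (∀ i, m < i → z i = 0) ∧
      (∀ᶠ ε in (l : Filter Q), u ε m ≠ 0) ∧
      ∀ i, Tendsto (fun ε => u ε i / u ε m) l (𝓝 (z i)) := by
  have hA : ∀ᶠ ε in (l : Filter Q), ∃ j ∈ (↑(range (N + 1)) : Set ℕ), u ε j ≠ 0 ∧
      ∀ i, ‖u ε i‖ ≤ ‖u ε j‖ := by
    filter_upwards [h0, h1] with ε e0 e1
    obtain ⟨i1, hi1⟩ := e1
    obtain ⟨j, hj, hmax⟩ := Finset.exists_max_image (range (N + 1)) (fun i => ‖u ε i‖)
      ⟨0, by simp⟩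
    have hall : ∀ i, ‖u ε i‖ ≤ ‖u ε j‖ := by
      intro i
      by_cases hi : i < N + 1
      · exact hmax i (mem_range.2 hi)
      · rw [e0 i (by omega)]
        simp
    refine ⟨j, hj, ?_, hall⟩
    intro hz
    have := hall i1
    rw [hz, norm_zero] at this
    exact hi1 (norm_le_zero_iff.1 this)
  obtain ⟨j, hjN, hj⟩ := (Ultrafilter.eventually_exists_mem_iff (Finset.finite_toSet _)).1 hA
  have hjN' : j ≤ N := by
    have := Finset.mem_range.1 (Finset.mem_coe.1 hjN); omega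
  have hB : ∀ i, ∃ w : ℂ, Tendsto (fun ε => u ε i / u ε j) l (𝓝 w) := by
    intro i
    have hc : IsCompact (Metric.closedBall (0 : ℂ) 1) := isCompact_closedBall _ _
    have hle : ((l.map fun ε => u ε i / u ε j : Ultrafilter ℂ) : Filter ℂ)
        ≤ 𝓟 (Metric.closedBall (0 : ℂ) 1) := by
      rw [le_principal_iff, Ultrafilter.coe_map, Filter.mem_map]
      filter_upwards [hj] with ε hε
      simp only [Set.mem_preimage, Metric.mem_closedBall, dist_zero_right, norm_div]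
      exact div_le_one_of_le₀ (hε.2 i) (norm_nonneg _)
    obtain ⟨w, _, hw⟩ := hc.ultrafilter_le_nhds _ hle
    exact ⟨w, hw⟩
  choose w hw using hB
  have hwj : w j = 1 := by
    have : Tendsto (fun ε => u ε j / u ε j) l (𝓝 1) := by
      refine Tendsto.congr' ?_ tendsto_const_nhds
      filter_upwards [hj] with ε hε
      exact (div_self hε.1).symm
    exact tendsto_nhds_unique (hw j) this
  have hwN : ∀ i, N < i → w i = 0 := by
    intro i hi
    have : Tendsto (fun ε => u ε i / u ε j) l (𝓝 0) := by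
      refine Tendsto.congr' ?_ tendsto_const_nhds
      filter_upwards [h0] with ε hε
      rw [hε i hi, zero_div]
    exact tendsto_nhds_unique (hw i) this
  classical
  have hne : ((range (N + 1)).filter fun i => w i ≠ 0).Nonempty :=
    ⟨j, by simp only [mem_filter, mem_range]; exact ⟨by omega, by rw [hwj]; exact one_ne_zero⟩⟩
  obtain ⟨m, hm, hmm⟩ := Finset.exists_max_image _ (fun i : ℕ => i) hne
  rw [mem_filter, mem_range] at hm
  have hwm : ∀ i, m < i → w i = 0 := by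
    intro i hi
    by_contra hc
    by_cases hiN : i < N + 1
    · have := hmm i (by rw [mem_filter, mem_range]; exact ⟨hiN, hc⟩)
      omega
    · exact hc (hwN i (by omega))
  have hum : ∀ᶠ ε in (l : Filter Q), u ε m ≠ 0 := by
    have := (hw m).eventually_ne hm.2
    filter_upwards [this] with ε hε hz
    rw [hz, zero_div] at hε
    exact hε rfl
  refine ⟨m, fun i => w i / w m, by omega, div_self hm.2, fun i hi => by
    simp [hwm i hi], hum, fun i => ?_⟩
  have := (hw i).div (hw m) hm.2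
  refine Tendsto.congr' ?_ this
  filter_upwards [hj, hum] with ε hε hε2
  have h3 := hε.1
  show u ε i / u ε j / (u ε m / u ε j) = u ε i / u ε m
  field_simp




theorem lim' {κ Q : Type} [Fintype κ] [DecidableEq κ] (l : Ultrafilter Q) (n : κ → ℕ) (x : Q → Vec κ)
    (h0 : ∀ᶠ ε in (l : Filter Q), ∀ k i, n k < i → x ε k i = 0)
    (h1 : ∀ᶠ ε in (l : Filter Q), ∀ k, ∃ i, x ε k i ≠ 0) :
    ∃ (m : κ → ℕ) (z : Vec κ), m ≤ n ∧ Cht m z ∧ (∀ᶠ ε in (l : Filter Q), ∀ k, x ε k (m k) ≠ 0) ∧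
      ∀ k i, Tendsto (fun ε => x ε k i / x ε k (m k)) l (𝓝 (z k i)) := by
  have h : ∀ k, ∃ (m : ℕ) (z : ℕ → ℂ), m ≤ n k ∧ z m = 1 ∧ (∀ i, m < i → z i = 0) ∧
      (∀ᶠ ε in (l : Filter Q), x ε k m ≠ 0) ∧
      ∀ i, Tendsto (fun ε => x ε k i / x ε k m) l (𝓝 (z i)) := fun k =>
    leg l (n k) (fun ε => x ε k) (h0.mono fun ε hε => hε k) (h1.mono fun ε hε => hε k)
  choose m z hm hz1 hz0 hx hT using h
  exact ⟨m, z, hm, ⟨hz1, hz0⟩, eventually_all.2 hx, hT⟩


theorem count' {Q : Type} (l : Ultrafilter Q) (Y B : Type) [Finite B] (R : Y → Y → Prop) (S : Q → Set Y)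
    (s : B → Q → Y)
    (h1 : ∀ b, ∀ᶠ ε in (l : Filter Q), s b ε ∈ S ε)
    (h2 : ∀ x : Q → Y, (∀ᶠ ε in (l : Filter Q), x ε ∈ S ε) → ∃ b, ∀ᶠ ε in (l : Filter Q), R (x ε) (s b ε))
    (h3 : ∀ b b', (∀ᶠ ε in (l : Filter Q), R (s b ε) (s b' ε)) → b = b') :
    ∀ᶠ ε in (l : Filter Q), (∀ b, s b ε ∈ S ε) ∧ (∀ y ∈ S ε, ∃ b, R y (s b ε)) ∧
      ∀ b b', R (s b ε) (s b' ε) → b = b' := by
  classical
  have e1 : ∀ᶠ ε in (l : Filter Q), ∀ b, s b ε ∈ S ε := Filter.eventually_all.2 h1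
  have e3 : ∀ᶠ ε in (l : Filter Q), ∀ b b', R (s b ε) (s b' ε) → b = b' := by
    rw [Filter.eventually_all]
    intro b
    rw [Filter.eventually_all]
    intro b'
    by_cases hbb : b = b'
    · exact Filter.Eventually.of_forall fun _ _ => hbb
    · have h4 : ¬ ∀ᶠ ε in (l : Filter Q), R (s b ε) (s b' ε) := fun h => hbb (h3 b b' h)
      exact (Ultrafilter.eventually_not.2 h4).mono fun ε hε hR => absurd hR hε
  have e2 : ∀ᶠ ε in (l : Filter Q), ∀ y ∈ S ε, ∃ b, R y (s b ε) := by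
    by_contra hcon
    have hcon' := Ultrafilter.eventually_not.2 hcon
    have hex : ∀ᶠ ε in (l : Filter Q), ∃ y, y ∈ S ε ∧ ∀ b, ¬ R y (s b ε) := by
      filter_upwards [hcon'] with ε hε
      push Not at hε
      exact hε
    obtain ⟨ε0, y0, -⟩ := hex.exists
    obtain ⟨x, hx⟩ : ∃ x : Q → Y, ∀ ε, (∃ y, y ∈ S ε ∧ ∀ b, ¬ R y (s b ε)) →
        x ε ∈ S ε ∧ ∀ b, ¬ R (x ε) (s b ε) := by
      refine ⟨fun ε => if h : ∃ y, y ∈ S ε ∧ ∀ b, ¬ R y (s b ε) then h.choose else y0, ?_⟩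
      intro ε h
      simp only [dif_pos h]
      exact h.choose_spec
    obtain ⟨b, hb⟩ := h2 x (hex.mono fun ε hε => (hx ε hε).1)
    obtain ⟨ε1, h5, h6⟩ := (hb.and hex).exists
    exact (hx ε1 h6).2 b h5
  filter_upwards [e1, e2, e3] with ε g1 g2 g3 using ⟨g1, g2, g3⟩


end Pool.Agent.H75Ten
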