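/-
helper75: implicit function theorem along an ultrafilter on a finite-dimensional parameter space
(the library's TB12 and TB13 with the parameter space `ℝ` replaced by `P`).
-/
import Pool.Graph.R_seed8.H919S.Stmts
import Pool.Graph.R_seed8.H919S.TB13

set_option autoImplicit false

open Filter Topology

namespace Pool.Agent.H75Ten

open Pool.Agent.H919S

variable {P : Type} [NormedAddCommGroup P] [NormedSpace ℝ P]
variable {E : Type} [NormedAddCommGroup E] [NormedSpace ℝ E]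

lemma deriv_line (F : P × E → E) (hF : ContDiff ℝ 1 F) (e : P) (x y : E) :
    HasDerivAt (fun t : ℝ => F (e, x + t • y)) (fderiv ℝ F (e, x) (0, y)) 0 := by
  have h1 : HasFDerivAt F (fderiv ℝ F (e, x)) (e, x) :=
    (hF.differentiable (by simp) (e, x)).hasFDerivAt
  have h2 : HasDerivAt (fun t : ℝ => ((e, x + t • y) : P × E)) ((0 : P), y) 0 := by
    refine HasDerivAt.prodMk (hasDerivAt_const _ _) ?_
    have h3 : HasDerivAt (fun t : ℝ => t • y) ((1 : ℝ) • y) 0 := (hasDerivAt_id (0 : ℝ)).smul_const y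
    simpa using h3.const_add x
  have h4 : HasFDerivAt F (fderiv ℝ F (e, x)) ((fun t : ℝ => ((e, x + t • y) : P × E)) 0) := by
    simpa using h1
  exact h4.comp_hasDerivAt (0 : ℝ) h2

theorem ift' [FiniteDimensional ℝ P] [FiniteDimensional ℝ E] (l : Ultrafilter P) (q₀ : P)
    (hl0 : (l : Filter P) ≤ 𝓝 q₀) (F : P × E → E) (p : E)
    (hF : ContDiff ℝ 1 F) (hF0 : F (q₀, p) = 0)
    (hnd : ∀ y : E, HasDerivAt (fun t : ℝ => F (q₀, p + t • y)) 0 0 → y = 0) :
    ∃ ξ : P → E, Tendsto ξ l (𝓝 p) ∧ (∀ᶠ ε in (l : Filter P), F (ε, ξ ε) = 0) ∧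
      ∀ η : P → E, Tendsto η l (𝓝 p) → (∀ᶠ ε in (l : Filter P), F (ε, η ε) = 0) →
        ∀ᶠ ε in (l : Filter P), η ε = ξ ε := by
  have hcomplete : CompleteSpace E := FiniteDimensional.complete ℝ E
  have hcompleteP : CompleteSpace P := FiniteDimensional.complete ℝ P
  set Φ : P × E → P × E := fun q => (q.1, F q) with hΦ
  set DΦ : P × E → (P × E →L[ℝ] P × E) :=
    fun q => (ContinuousLinearMap.fst ℝ P E).prod (fderiv ℝ F q) with hDΦ
  have hinj : Function.Injective (DΦ (q₀, p)) := by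
    rw [injective_iff_map_eq_zero]
    rintro ⟨a, y⟩ h
    simp only [hDΦ, ContinuousLinearMap.prod_apply, ContinuousLinearMap.coe_fst',
      Prod.mk_eq_zero] at h
    obtain ⟨rfl, h2⟩ := h
    have h3 := deriv_line F hF q₀ p y
    rw [h2] at h3
    rw [hnd y h3]
    rfl
  obtain ⟨A, hA⟩ : ∃ A : (P × E) ≃L[ℝ] (P × E), (A : P × E →L[ℝ] P × E) = DΦ (q₀, p) := by
    refine ⟨(LinearEquiv.ofInjectiveEndo (DΦ (q₀, p) : P × E →ₗ[ℝ] P × E) hinj).toContinuousLinearEquiv, ?_⟩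
    ext x <;> simp
  have hstrict : HasStrictFDerivAt Φ (A : P × E →L[ℝ] P × E) (q₀, p) := by
    rw [hA]
    exact hasStrictFDerivAt_fst.prodMk (hF.contDiffAt.hasStrictFDerivAt (by simp))
  have hΦ0 : Φ (q₀, p) = (q₀, 0) := by simp [hΦ, hF0]
  set ψ := hstrict.localInverse Φ A (q₀, p) with hψ
  have ht : Tendsto ψ (𝓝 (q₀, 0)) (𝓝 (q₀, p)) := by
    have := hstrict.localInverse_tendsto
    rwa [hΦ0] at this
  have hin : Tendsto (fun e : P => ((e, (0 : E)) : P × E)) l (𝓝 (q₀, 0)) := by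
    have : Tendsto (fun e : P => ((e, (0 : E)) : P × E)) (𝓝 q₀) (𝓝 (q₀, 0)) := by
      have h : Continuous (fun e : P => ((e, (0 : E)) : P × E)) := by fun_prop
      exact h.tendsto q₀
    exact this.mono_left hl0
  have htl : Tendsto (fun e : P => ψ (e, 0)) l (𝓝 (q₀, p)) := ht.comp hin
  have hright : ∀ᶠ e in (l : Filter P), Φ (ψ (e, 0)) = (e, 0) := by
    have := hstrict.eventually_right_inverse
    rw [hΦ0] at this
    exact hin.eventually this
  refine ⟨fun e => (ψ (e, 0)).2, ?_, ?_, ?_⟩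
  · exact (continuous_snd.tendsto _).comp htl
  · filter_upwards [hright] with e he
    simp only [hΦ, Prod.mk.injEq] at he
    obtain ⟨h1, h2⟩ := he
    have h3 : ψ (e, 0) = (e, (ψ (e, 0)).2) := Prod.ext h1 rfl
    rw [← h3]
    exact h2
  · intro η hη hF
    have h1 : Tendsto (fun e : P => ((e, η e) : P × E)) l (𝓝 (q₀, p)) := by
      rw [nhds_prod_eq]
      exact (tendsto_id.mono_right hl0).prodMk hη
    have h2 : ∀ᶠ e in (l : Filter P), ψ (Φ (e, η e)) = (e, η e) :=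
      h1.eventually hstrict.eventually_left_inverse
    filter_upwards [h2, hF] with e he he2
    have h3 : Φ (e, η e) = (e, 0) := by simp [hΦ, he2]
    rw [h3] at he
    rw [he]

open TB13 in
theorem iftV' [FiniteDimensional ℝ P] {κ : Type} [Fintype κ] [DecidableEq κ] (l : Ultrafilter P) (q₀ : P)
    (hl0 : (l : Filter P) ≤ 𝓝 q₀)
    (J : Finset (κ × ℕ)) (G : P → Vec κ → κ → ℕ → ℂ) (p : Vec κ)
    (hcd : ∀ k i, (k, i) ∈ J → ContDiff ℝ 1 (fun q : P × (J → ℂ) => G q.1 (extJ J p q.2) k i))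
    (hcj : ∀ ε x k i, (k, i) ∈ J → G ε (cj x) k i = (starRingEnd ℂ) (G ε x k i))
    (hre : IsRe p) (h0 : ∀ k i, (k, i) ∈ J → G q₀ p k i = 0) (hnd : NDG J (G q₀) p) :
    ∃ ξ : P → Vec κ, (∀ ε, InCh J p (ξ ε)) ∧ (∀ k i, Tendsto (fun ε => ξ ε k i) l (𝓝 (p k i))) ∧
      (∀ᶠ ε in (l : Filter P), ∀ k i, (k, i) ∈ J → G ε (ξ ε) k i = 0) ∧
      (∀ᶠ ε in (l : Filter P), IsRe (ξ ε)) ∧
      ∀ η : P → Vec κ, (∀ᶠ ε in (l : Filter P), InCh J p (η ε)) →
        (∀ k i, Tendsto (fun ε => η ε k i) l (𝓝 (p k i))) →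
        (∀ᶠ ε in (l : Filter P), ∀ k i, (k, i) ∈ J → G ε (η ε) k i = 0) →
        ∀ᶠ ε in (l : Filter P), η ε = ξ ε := by
  let F : P × (J → ℂ) → (J → ℂ) := fun q j => G q.1 (extJ J p q.2) j.1.1 j.1.2
  let p0 : J → ℂ := fun j => p j.1.1 j.1.2
  have hp0 : extJ J p p0 = p := ext_of_inCh (fun k i _ => rfl)
  have hF : ContDiff ℝ 1 F := contDiff_pi.2 fun j => hcd j.1.1 j.1.2 j.2
  have hF0 : F (q₀, p0) = 0 := by
    funext j
    show G q₀ (extJ J p p0) j.1.1 j.1.2 = 0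
    rw [hp0]
    exact h0 _ _ j.2
  -- nondegeneracy in both forms
  have key : ∀ (ε : P) (ξ : J → ℂ) (Y : Vec κ), (∀ k i, (k, i) ∉ J → Y k i = 0) →
      (HasDerivAt (fun t : ℝ => F (ε, ξ + t • (fun j : J => Y j.1.1 j.1.2))) 0 0 ↔
        ∀ k i, (k, i) ∈ J → HasDerivAt
          (fun t : ℝ => G ε (fun k i => extJ J p ξ k i + (t : ℂ) * Y k i) k i) 0 0) := by
    intro ε ξ Y hY
    rw [hasDerivAt_pi]
    have e : ∀ t : ℝ, extJ J p (ξ + t • (fun j : J => Y j.1.1 j.1.2)) =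
        fun k i => extJ J p ξ k i + (t : ℂ) * Y k i := fun t => ext_line rfl hY t
    constructor
    · intro h k i hk
      have h1 := h ⟨(k, i), hk⟩
      have h2 : (fun t : ℝ => F (ε, ξ + t • (fun j : J => Y j.1.1 j.1.2)) ⟨(k, i), hk⟩) =
          fun t : ℝ => G ε (fun k i => extJ J p ξ k i + (t : ℂ) * Y k i) k i := by
        funext t
        show G ε (extJ J p (ξ + t • (fun j : J => Y j.1.1 j.1.2))) k i = _
        rw [e t]
      rw [h2] at h1
      exact h1
    · intro h j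
      have h1 := h j.1.1 j.1.2 j.2
      have h2 : (fun t : ℝ => F (ε, ξ + t • (fun j : J => Y j.1.1 j.1.2)) j) =
          fun t : ℝ => G ε (fun k i => extJ J p ξ k i + (t : ℂ) * Y k i) j.1.1 j.1.2 := by
        funext t
        show G ε (extJ J p (ξ + t • (fun j : J => Y j.1.1 j.1.2))) j.1.1 j.1.2 = _
        rw [e t]
      rw [h2]
      exact h1
  have hndE : ∀ y : J → ℂ, HasDerivAt (fun t : ℝ => F (q₀, p0 + t • y)) 0 0 → y = 0 := by
    intro y hy
    let Y : Vec κ := extJ J (fun _ _ => 0) y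
    have hY : ∀ k i, (k, i) ∉ J → Y k i = 0 := fun k i hk => ext_not hk
    have hyY : y = fun j : J => Y j.1.1 j.1.2 := by
      funext j
      exact (ext_mem j.2).symm
    rw [hyY, key q₀ p0 Y hY] at hy
    have h1 := hnd Y hY (by
      intro k i hk
      have h2 := hy k i hk
      rw [hp0] at h2
      exact h2)
    rw [hyY]
    funext j
    exact h1 _ _
  obtain ⟨ξ, hξ1, hξ2, hξ4⟩ := ift' l q₀ hl0 F p0 hF hF0 hndE
  have hξ1' := tendsto_pi_nhds.1 hξ1
  refine ⟨fun ε => extJ J p (ξ ε), ?_, ?_, ?_, ?_, ?_⟩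
  · intro ε k i hk
    exact ext_not hk
  · intro k i
    by_cases hk : (k, i) ∈ J
    · have h1 : (fun ε => extJ J p (ξ ε) k i) = fun ε => ξ ε ⟨(k, i), hk⟩ :=
        funext fun ε => ext_mem hk
      rw [h1]
      exact hξ1' ⟨(k, i), hk⟩
    · have h1 : (fun ε => extJ J p (ξ ε) k i) = fun _ => p k i :=
        funext fun ε => ext_not hk
      rw [h1]
      exact tendsto_const_nhds
  · filter_upwards [hξ2] with ε hε k i hk
    exact congrFun hε ⟨(k, i), hk⟩
  · have h1 : Tendsto (fun ε => (fun j : J => (starRingEnd ℂ) (ξ ε j))) l (𝓝 p0) := by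
      rw [tendsto_pi_nhds]
      intro j
      have h2 := (Complex.continuous_conj.tendsto (p0 j)).comp (hξ1' j)
      have h3 : (starRingEnd ℂ) (p0 j) = p0 j := Complex.conj_eq_iff_im.2 (hre _ _)
      rw [h3] at h2
      exact h2
    have h4 : ∀ᶠ ε in (l : Filter P), F (ε, fun j : J => (starRingEnd ℂ) (ξ ε j)) = 0 := by
      filter_upwards [hξ2] with ε hε
      funext j
      show G ε (extJ J p (fun j : J => (starRingEnd ℂ) (ξ ε j))) j.1.1 j.1.2 = 0
      rw [ext_cj hre, hcj ε _ _ _ j.2]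
      have h5 : G ε (extJ J p (ξ ε)) j.1.1 j.1.2 = 0 := congrFun hε j
      rw [h5, map_zero]
    filter_upwards [hξ4 _ h1 h4] with ε hε k i
    by_cases hk : (k, i) ∈ J
    · show (extJ J p (ξ ε) k i).im = 0
      rw [ext_mem hk]
      exact Complex.conj_eq_iff_im.1 (congrFun hε ⟨(k, i), hk⟩)
    · show (extJ J p (ξ ε) k i).im = 0
      rw [ext_not hk]
      exact hre k i
  · intro η hη1 hη2 hη3
    have h1 : Tendsto (fun ε => (fun j : J => η ε j.1.1 j.1.2)) l (𝓝 p0) := by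
      rw [tendsto_pi_nhds]
      intro j
      exact hη2 _ _
    have h2 : ∀ᶠ ε in (l : Filter P), F (ε, fun j : J => η ε j.1.1 j.1.2) = 0 := by
      filter_upwards [hη1, hη3] with ε h3 h4
      funext j
      show G ε (extJ J p (fun j : J => η ε j.1.1 j.1.2)) j.1.1 j.1.2 = 0
      rw [ext_of_inCh h3]
      exact h4 _ _ j.2
    filter_upwards [hξ4 _ h1 h2, hη1] with ε h3 h4
    rw [← ext_of_inCh h4, h3]

end Pool.Agent.H75Ten
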