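/-
helper75: the spherical conversion of the library (H919S, TE00 and TE02..TE05) with the tensor
varying as well: a `C¹` family of tensors `τ q` and of weights `e q`, `q` in a finite-dimensional
parameter space `P`.
-/
import Pool.Graph.R_seed8.H919S.All
import Pool.Agent.H75Ten.O1
import Pool.Agent.H75Ten.O2

set_option autoImplicit false

namespace Pool.Agent.H75Ten

open Finset Filter Topology
open Pool.Agent.H919S

/-- weighted singular tuples of `T` with weight `δ`: all real, and their number is `∑ W m`. -/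
def Sph {κ : Type} [Fintype κ] [DecidableEq κ] (n : κ → ℕ) (T : Ten κ) (δ : ℝ) : Prop :=
  ∃ (N : ℕ) (r : Fin N → Vec κ), (N : ℤ) = ∑ m ∈ box n, W m ∧
    (∀ b, r b ∈ SC n T δ ∧ IsRe (r b)) ∧ (∀ x ∈ SC n T δ, ∃ b, Prp x (r b)) ∧
    ∀ b b', Prp (r b) (r b') → b = b'

section

variable {P : Type} [NormedAddCommGroup P] [NormedSpace ℝ P]
variable {κ : Type} [Fintype κ] [DecidableEq κ]

theorem der_cd {D : Type} [NormedAddCommGroup D] [NormedSpace ℝ D] (τ : D → Ten κ)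
    (hτ : ∀ ι, ContDiff ℝ 1 (fun q => τ q ι)) (X : D → Vec κ)
    (hX : ∀ k i, ContDiff ℝ 1 (fun p => X p k i)) (m : κ → ℕ) (k : κ) (i : ℕ) :
    ContDiff ℝ 1 (fun p => der m (τ p) (X p) k i) := by
  unfold der
  refine ContDiff.sum fun ι _ => ?_
  refine ContDiff.mul ?_ ?_
  · exact Complex.ofRealCLM.contDiff.comp (hτ ι)
  · exact contDiff_prod fun l _ => hX l (ι l)

theorem gc_cd {D : Type} [NormedAddCommGroup D] [NormedSpace ℝ D] (τ : D → Ten κ)
    (hτ : ∀ ι, ContDiff ℝ 1 (fun q => τ q ι)) (e : D → ℝ) (he : ContDiff ℝ 1 e) (X : D → Vec κ)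
    (hX : ∀ k i, ContDiff ℝ 1 (fun p => X p k i)) (n m : κ → ℕ) (k : κ) (i : ℕ) :
    ContDiff ℝ 1 (fun p => GC n m (τ p) (e p) (X p) k i) := by
  have h1 : ∀ k i, ContDiff ℝ 1 (fun p => der n (τ p) (X p) k i) := der_cd τ hτ X hX n
  have h2 : ContDiff ℝ 1 (fun p => (e p : ℂ)) := Complex.ofRealCLM.contDiff.comp he
  unfold GC
  split_ifs
  · exact (h1 k i).sub (((h2.pow _).mul (h1 k (m k))).mul (hX k i))
  · exact ((h1 k (m k)).mul (hX k i)).sub ((h2.pow _).mul (h1 k i))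

theorem der_tend {Q : Type} (l : Filter Q) (τ : Q → Ten κ) (T : Ten κ)
    (hτ : ∀ ι, Tendsto (fun q => τ q ι) l (𝓝 (T ι))) (X : Q → Vec κ) (z : Vec κ)
    (h : ∀ k i, Tendsto (fun a => X a k i) l (𝓝 (z k i))) (m : κ → ℕ) (k : κ) (i : ℕ) :
    Tendsto (fun a => der m (τ a) (X a) k i) l (𝓝 (der m T z k i)) := by
  unfold der
  refine tendsto_finsetSum _ fun ι' _ => ?_
  refine Tendsto.mul ?_ (tendsto_finsetProd _ fun l' _ => h l' (ι' l'))
  exact (Complex.continuous_ofReal.tendsto _).comp (hτ ι')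

open TE02 in
theorem branch' [FiniteDimensional ℝ P] (l : Ultrafilter P) (q₀ : P) (hl : (l : Filter P) ≤ 𝓝 q₀)
    (τ : P → Ten κ) (hτ : ∀ ι, ContDiff ℝ 1 (fun q => τ q ι)) (e : P → ℝ) (he : ContDiff ℝ 1 e)
    (he0 : e q₀ = 0) (hpos : ∀ᶠ q in (l : Filter P), 0 < e q)
    (n m : κ → ℕ) (p : Vec κ) (hG : Good n (τ q₀)) (hmn : m ≤ n) (hp : p ∈ Sol m (τ q₀)) :
    ∃ ξ : P → Vec κ, (∀ k i, Tendsto (fun ε => ξ ε k i) l (𝓝 (p k i))) ∧
      (∀ᶠ ε in (l : Filter P), ξ ε ∈ SC n (τ ε) (e ε) ∧ IsRe (ξ ε)) ∧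
      ∀ x : P → Vec κ, (∀ᶠ ε in (l : Filter P), x ε ∈ SC n (τ ε) (e ε) ∧ ∀ k, x ε k (m k) ≠ 0) →
        (∀ k i, Tendsto (fun ε => x ε k i / x ε k (m k)) l (𝓝 (p k i))) →
        ∀ᶠ ε in (l : Filter P), Prp (x ε) (ξ ε) := by
  obtain ⟨hz, hnd⟩ := E01 basics κ n m (τ q₀) p hG hmn hp
  have hre : IsRe p := ((hG m hmn).1 p hp).1
  obtain ⟨ξ, hx1, hx2, hx3, hx5, hx6⟩ := iftV' l q₀ hl (Jc n m)
    (fun q => GC n m (τ q) (e q)) p
    (by
      intro k i _
      refine gc_cd (fun q : P × (Jc n m → ℂ) => τ q.1) (fun ι => (hτ ι).comp contDiff_fst)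
        (fun q => e q.1) (he.comp contDiff_fst) (fun q => extJ (Jc n m) p q.2) ?_ n m k i
      intro k i
      unfold extJ
      by_cases h : (k, i) ∈ Jc n m
      · simp only [h, dif_pos]
        exact (contDiff_apply ℝ ℂ (⟨(k, i), h⟩ : Jc n m)).comp contDiff_snd
      · simp only [h, dif_neg, not_false_eq_true]
        exact contDiff_const)
    (fun ε x k i _ => (E00 basics κ n m (τ ε)).2 (e ε) x k i) hre
    (by
      intro k i hk
      show GC n m (τ q₀) (e q₀) p k i = 0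
      rw [he0]
      exact hz k i hk)
    (by
      show NDG (Jc n m) (GC n m (τ q₀) (e q₀)) p
      rw [he0]
      exact hnd)
  have hxm : ∀ ε k, ξ ε k (m k) = 1 := by
    intro ε k
    rw [hx1 ε k (m k) (by rw [mem_Jc]; simp)]
    exact hp.1.1 k
  refine ⟨ξ, hx2, ?_, ?_⟩
  · filter_upwards [hx3, hx5] with ε h3 h5
    refine ⟨⟨?_, ?_, ?_⟩, h5⟩
    · intro k i hi
      rw [hx1 ε k i (by rw [mem_Jc]; intro h; omega)]
      exact hp.1.2 k i (lt_of_le_of_lt (hmn k) hi)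
    · intro k
      exact ⟨m k, by rw [hxm]; exact one_ne_zero⟩
    · intro k
      refine ⟨(e ε : ℂ) ^ (m k) * der n (τ ε) (ξ ε) k (m k), ?_⟩
      intro i hi
      by_cases him : i = m k
      · subst him
        rw [hxm, mul_one]
      · exact gc_zero' n m (τ ε) (e ε) (ξ ε) k i (h3 k i (by rw [mem_Jc]; exact ⟨him, hi⟩))
  · intro x hxe hxl
    have key := hx6 (fun ε k i => x ε k i / x ε k (m k)) (by
      filter_upwards [hxe] with ε he
      intro k i hki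
      rw [mem_Jc] at hki
      show x ε k i / x ε k (m k) = p k i
      by_cases him : i = m k
      · subst him
        rw [div_self (he.2 k)]
        exact (hp.1.1 k).symm
      · have hi : n k < i := by
          by_contra hcon
          exact hki ⟨him, by omega⟩
        rw [he.1.1 k i hi, zero_div]
        exact (hp.1.2 k i (lt_of_le_of_lt (hmn k) hi)).symm) hxl (by
      filter_upwards [hxe, hpos] with ε hee hε
      intro k i hki
      rw [mem_Jc] at hki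
      obtain ⟨⟨_, _, hS⟩, hne⟩ := hee
      obtain ⟨lam, hlam⟩ := hS k
      apply gc_zero n m (τ ε) (e ε) (ne_of_gt hε)
      have hxeq : x ε = fun l i => (x ε l (m l)) * (x ε l i / x ε l (m l)) := by
        funext l i
        rw [mul_div_cancel₀ _ (hne l)]
      have hh := fun j => (basics.hom κ n (τ ε) (fun l => x ε l (m l))
        (fun l i => x ε l i / x ε l (m l))).1 k j
      rw [← hxeq] at hh
      set R : ℂ := ∏ l ∈ univ.erase k, x ε l (m l) with hR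
      have hR0 : R ≠ 0 := by
        rw [hR, Finset.prod_ne_zero_iff]
        intro a _
        exact hne a
      have e1 := hlam i hki.2
      have e2 := hlam (m k) (hmn k)
      rw [hh i] at e1
      rw [hh (m k)] at e2
      have hlam2 : lam = (e ε : ℂ) ^ (m k) * (R * der n (τ ε) (fun l i => x ε l i / x ε l (m l)) k (m k)) /
          x ε k (m k) := by
        rw [e2, mul_div_cancel_right₀ _ (hne k)]
      rw [hlam2] at e1
      have hk := hne k
      have e3 : R * ((e ε : ℂ) ^ i * der n (τ ε) (fun l i => x ε l i / x ε l (m l)) k i) =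
          R * ((e ε : ℂ) ^ (m k) * der n (τ ε) (fun l i => x ε l i / x ε l (m l)) k (m k) *
            (x ε k i / x ε k (m k))) := by
        linear_combination e1
      exact mul_left_cancel₀ hR0 e3)
    filter_upwards [hxe, key] with ε he hke
    intro k
    refine ⟨x ε k (m k), he.2 k, ?_⟩
    intro i
    rw [← hke]
    show x ε k i = x ε k (m k) * (x ε k i / x ε k (m k))
    rw [mul_div_cancel₀ _ (he.2 k)]

theorem cov' (l : Ultrafilter P) (q₀ : P) (hl : (l : Filter P) ≤ 𝓝 q₀)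
    (τ : P → Ten κ) (hτ : ∀ ι, Continuous (fun q => τ q ι)) (e : P → ℝ) (he : Continuous e)
    (he0 : e q₀ = 0) (hpos : ∀ᶠ q in (l : Filter P), 0 < e q)
    (n : κ → ℕ) (x : P → Vec κ) (hx : ∀ᶠ ε in (l : Filter P), x ε ∈ SC n (τ ε) (e ε)) :
    ∃ m p, m ≤ n ∧ p ∈ Sol m (τ q₀) ∧ (∀ᶠ ε in (l : Filter P), ∀ k, x ε k (m k) ≠ 0) ∧
      ∀ k i, Tendsto (fun ε => x ε k i / x ε k (m k)) l (𝓝 (p k i)) := by
  obtain ⟨m, z, hmn, hz, hne, hlim⟩ := lim' l n x (hx.mono fun ε h => h.1) (hx.mono fun ε h => h.2.1)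
  refine ⟨m, z, hmn, ⟨hz, ?_⟩, hne, hlim⟩
  intro k i hi
  have hsup : ∀ k i, m k < i → z k i = 0 := hz.2
  rw [← basics.supp κ m n (τ q₀) z hmn hsup k i hi.le]
  have hder := fun k i => der_tend (l : Filter P) τ (τ q₀)
    (fun ι => ((hτ ι).tendsto q₀).mono_left hl) (fun ε => fun k i => x ε k i / x ε k (m k)) z hlim n k i
  have hto : Tendsto (fun ε : P => (e ε : ℂ)) (l : Filter P) (𝓝 0) := by
    have h0 : Tendsto (fun ε : P => (e ε : ℂ)) (𝓝 q₀) (𝓝 ((e q₀ : ℝ) : ℂ)) :=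
      (Complex.continuous_ofReal.comp he).tendsto q₀
    rw [he0] at h0
    simpa using h0.mono_left hl
  have hpow : Tendsto (fun ε : P => (e ε : ℂ) ^ (m k - i)) (l : Filter P) (𝓝 0) := by
    have := hto.pow (m k - i)
    have h0 : (0 : ℂ) ^ (m k - i) = 0 := zero_pow (by omega)
    rwa [h0] at this
  have hR : Tendsto (fun ε : P => (e ε : ℂ) ^ (m k - i) *
      der n (τ ε) (fun k i => x ε k i / x ε k (m k)) k (m k) * (x ε k i / x ε k (m k))) (l : Filter P)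
      (𝓝 (0 * der n (τ q₀) z k (m k) * z k i)) :=
    (hpow.mul (hder k (m k))).mul (hlim k i)
  have hL := hder k i
  have hev : (fun ε : P => der n (τ ε) (fun k i => x ε k i / x ε k (m k)) k i) =ᶠ[(l : Filter P)]
      (fun ε : P => (e ε : ℂ) ^ (m k - i) *
      der n (τ ε) (fun k i => x ε k i / x ε k (m k)) k (m k) * (x ε k i / x ε k (m k))) := by
    filter_upwards [hx, hne, hpos] with ε h1 h2 h3
    exact TE03.norm_eq basics.hom n m (τ ε) (e ε) h3.ne' (x ε) h1 hmn h2 k i hi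
  have := tendsto_nhds_unique (hL.congr' hev) hR
  simpa using this

theorem sep' {Q : Type} (l : Ultrafilter Q) (m m' : κ → ℕ) (p p' : Vec κ) (ξ ξ' : Q → Vec κ)
    (hp : Cht m p) (hp' : Cht m' p')
    (h : ∀ k i, Tendsto (fun ε => ξ ε k i) l (𝓝 (p k i)))
    (h' : ∀ k i, Tendsto (fun ε => ξ' ε k i) l (𝓝 (p' k i)))
    (hP : ∀ᶠ ε in (l : Filter Q), Prp (ξ ε) (ξ' ε)) : m = m' ∧ p = p' := by
  have cross : ∀ k i j, p k i * p' k j = p k j * p' k i := by
    intro k i j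
    have t1 : Tendsto (fun ε => ξ ε k i * ξ' ε k j) l (𝓝 (p k i * p' k j)) :=
      (h k i).mul (h' k j)
    have t2 : Tendsto (fun ε => ξ ε k j * ξ' ε k i) l (𝓝 (p k j * p' k i)) :=
      (h k j).mul (h' k i)
    refine tendsto_nhds_unique_of_eventuallyEq t1 t2 ?_
    filter_upwards [hP] with ε hε
    obtain ⟨c, _, hc⟩ := hε k
    rw [hc i, hc j]
    ring
  have hm : ∀ k, m k = m' k := by
    intro k
    have h1 := cross k (m k) (m' k)
    rw [hp.1 k, hp'.1 k, one_mul] at h1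
    apply le_antisymm
    · by_contra hlt
      rw [hp'.2 k (m k) (by omega), mul_zero] at h1
      exact one_ne_zero h1
    · by_contra hlt
      rw [hp.2 k (m' k) (by omega), zero_mul] at h1
      exact one_ne_zero h1
  refine ⟨funext hm, ?_⟩
  funext k i
  have h1 := cross k i (m k)
  rw [hp.1 k, one_mul] at h1
  rw [hm k, hp'.1 k, mul_one] at h1
  exact h1

/-- along every ultrafilter converging to `q₀` from the side `0 < e`, the tensors `τ q` are good. -/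
theorem sph_ultra [FiniteDimensional ℝ P] (l : Ultrafilter P) (q₀ : P) (hl : (l : Filter P) ≤ 𝓝 q₀)
    (τ : P → Ten κ) (hτ : ∀ ι, ContDiff ℝ 1 (fun q => τ q ι)) (e : P → ℝ) (he : ContDiff ℝ 1 e)
    (he0 : e q₀ = 0) (hpos : ∀ᶠ q in (l : Filter P), 0 < e q)
    (n : κ → ℕ) (hT : Good n (τ q₀)) :
    ∀ᶠ q in (l : Filter P), Sph n (τ q) (e q) := by
  classical
  have hbox : ∀ m : κ → ℕ, m ∈ box n ↔ m ≤ n := by
    intro m
    unfold H919S.box
    rw [Fintype.mem_piFinset]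
    simp only [Finset.mem_range, Nat.lt_succ_iff]
    rfl
  have hfin : ∀ m : {m // m ∈ box n}, Finite (Sol m.1 (τ q₀)) := fun m =>
    ((hT m.1 ((hbox m.1).1 m.2)).2.1).to_subtype
  have hfinB : Finite (Σ m : {m // m ∈ box n}, Sol m.1 (τ q₀)) := by infer_instance
  have hbr := fun b : (Σ m : {m // m ∈ box n}, Sol m.1 (τ q₀)) =>
    branch' l q₀ hl τ hτ e he he0 hpos n b.1.1 b.2.1 hT ((hbox _).1 b.1.2) b.2.2
  choose ξ hξ1 hξ2 hξ3 using hbr
  have hcount := count' l (Vec κ) (Σ m : {m // m ∈ box n}, Sol m.1 (τ q₀)) Prp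
    (fun ε => SC n (τ ε) (e ε)) ξ
    (fun b => (hξ2 b).mono fun ε h => h.1)
    (by
      intro x hx
      obtain ⟨m, p, hm, hp, hne, htend⟩ := cov' l q₀ hl τ (fun ι => (hτ ι).continuous) e
        he.continuous he0 hpos n x hx
      refine ⟨⟨⟨m, (hbox m).2 hm⟩, ⟨p, hp⟩⟩, ?_⟩
      exact hξ3 ⟨⟨m, (hbox m).2 hm⟩, ⟨p, hp⟩⟩ x (hx.and hne) htend)
    (by
      rintro ⟨⟨m, hm⟩, ⟨p, hp⟩⟩ ⟨⟨m', hm'⟩, ⟨p', hp'⟩⟩ hR
      obtain ⟨e1, e2⟩ := sep' l m m' p p' _ _ hp.1 hp'.1 (hξ1 ⟨⟨m, hm⟩, ⟨p, hp⟩⟩)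
        (hξ1 ⟨⟨m', hm'⟩, ⟨p', hp'⟩⟩) hR
      subst e1
      subst e2
      rfl)
  have hre : ∀ᶠ ε in (l : Filter P), ∀ b, IsRe (ξ b ε) :=
    eventually_all.2 fun b => (hξ2 b).mono fun ε h => h.2
  filter_upwards [hcount, hre] with δ hδ hδr
  obtain ⟨hδ1, hδ2, hδ3⟩ := hδ
  let E := Finite.equivFin (Σ m : {m // m ∈ box n}, Sol m.1 (τ q₀))
  refine ⟨Nat.card (Σ m : {m // m ∈ box n}, Sol m.1 (τ q₀)), fun j => ξ (E.symm j) δ, ?_, ?_,
    ?_, ?_⟩
  · rw [Nat.card_sigma]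
    push_cast
    rw [← Finset.sum_coe_sort (box n) W]
    refine Finset.sum_congr rfl fun m _ => ?_
    rw [← (hT m.1 ((hbox m.1).1 m.2)).2.2]
    rfl
  · exact fun b => ⟨hδ1 _, hδr _⟩
  · intro x hx
    obtain ⟨b, hb⟩ := hδ2 x hx
    refine ⟨E b, ?_⟩
    change Prp x (ξ (E.symm (E b)) δ)
    rw [Equiv.symm_apply_apply]
    exact hb
  · intro b b' hb
    exact E.symm.injective (hδ3 _ _ hb)

/-- the whole one-sided neighbourhood is good. -/
theorem sph_nhds [FiniteDimensional ℝ P] (q₀ : P)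
    (τ : P → Ten κ) (hτ : ∀ ι, ContDiff ℝ 1 (fun q => τ q ι)) (e : P → ℝ) (he : ContDiff ℝ 1 e)
    (he0 : e q₀ = 0) (n : κ → ℕ) (hT : Good n (τ q₀)) :
    ∀ᶠ q in 𝓝 q₀, 0 < e q → Sph n (τ q) (e q) := by
  have key : {q | Sph n (τ q) (e q)} ∈ 𝓝[{q | 0 < e q}] q₀ := by
    rw [Filter.mem_iff_ultrafilter]
    intro g hg
    have h1 : (g : Filter P) ≤ 𝓝 q₀ := hg.trans nhdsWithin_le_nhds
    have h2 : ∀ᶠ q in (g : Filter P), 0 < e q := hg self_mem_nhdsWithin
    exact sph_ultra g q₀ h1 τ hτ e he he0 h2 n hT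
  have := mem_nhdsWithin_iff_eventually.1 key
  exact this

end

end Pool.Agent.H75Ten
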