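/-
helper75: removing the weights, the open set, all leading subtensors, and an integer tensor.
-/
import Pool.Agent.H75Ten.O3

set_option autoImplicit false

namespace Pool.Agent.H75Ten

open Finset Filter Topology
open Pool.Agent.H919S

/-- `T` has exactly `c(m)` complex singular tuples, all of them real. -/
def FullyReal {d : ℕ} (m : Fin d → ℕ) (T : (∀ i : Fin d, Fin (m i + 1)) → ℝ) : Prop :=
  ∃ (N : ℕ) (r : Fin N → ∀ i : Fin d, Fin (m i + 1) → ℝ),
    (N : ℤ) = MvPolynomial.coeff (Finsupp.equivFunOnFinite.symm m)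
      (∏ k : Fin d, ∑ j ∈ Finset.range (m k + 1),
        (∑ i ∈ Finset.univ.erase k, (MvPolynomial.X i : MvPolynomial (Fin d) ℤ)) ^ j
          * (MvPolynomial.X k : MvPolynomial (Fin d) ℤ) ^ (m k - j)) ∧
    (∀ x : ∀ i : Fin d, Fin (m i + 1) → ℂ,
      ((∀ k : Fin d, x k ≠ 0) ∧
        ∀ k : Fin d, ∃ l : ℂ, ∀ j : Fin (m k + 1),
          ∑ ι : (∀ i : Fin d, Fin (m i + 1)),
            (if ι k = j then (T ι : ℂ) * ∏ i ∈ Finset.univ.erase k, x i (ι i) else 0)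
            = l * x k j)
      ↔ ∃ a : Fin N, ∀ k : Fin d, ∃ c : ℂ, c ≠ 0 ∧
          ∀ j : Fin (m k + 1), x k j = c * (r a k j : ℂ)) ∧
    (∀ a a' : Fin N,
      (∀ k : Fin d, ∃ c : ℂ, c ≠ 0 ∧
          ∀ j : Fin (m k + 1), (r a' k j : ℂ) = c * (r a k j : ℂ)) → a = a')

/-- the leading subtensor of format `m ≤ n`. -/
def lead {d : ℕ} {n m : Fin d → ℕ} (h : m ≤ n) (T : (∀ i : Fin d, Fin (n i + 1)) → ℝ) :
    (∀ i : Fin d, Fin (m i + 1)) → ℝ :=
  fun ι => T fun i => Fin.castLE (Nat.succ_le_succ (h i)) (ι i)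

open TE07 in
theorem fullyReal_of {d : ℕ} (n : Fin d → ℕ) (T' : Ten (Fin d)) (h : Sph n T' 1) :
    FullyReal n (fun ι => T' (fun k => (ι k : ℕ))) := by
  obtain ⟨N, r, hN, hr, hx, hi⟩ := h
  have hre : ∀ b k i, (((r b k i).re : ℝ) : ℂ) = r b k i := by
    intro b k i
    apply Complex.ext
    · simp
    · rw [Complex.ofReal_im, (hr b).2 k i]
  have hz : ∀ b k i, n k < i → r b k i = 0 := fun b k i hki => (hr b).1.1 k i hki
  refine ⟨N, fun m k j => (r m k j).re, ?_, ?_, ?_⟩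
  · rw [hN]
    exact (C1 d n).symm
  · intro x
    rw [mem_iff]
    constructor
    · intro h
      obtain ⟨b, hb⟩ := hx _ h
      refine ⟨b, fun k => ?_⟩
      obtain ⟨c, hc, hcx⟩ := hb k
      refine ⟨c, hc, fun j => ?_⟩
      rw [← ext_fin x k, hcx, hre]
    · rintro ⟨b, hb⟩
      choose c hc hcx using hb
      have h1 : TE07.ext x = fun k i => c k * r b k i := by
        funext k i
        by_cases hki : i < n k + 1
        · have h2 := hcx k ⟨i, hki⟩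
          rw [← ext_fin x k, hre] at h2
          exact h2
        · rw [hz b k i (by omega), mul_zero]
          unfold TE07.ext
          rw [dif_neg hki]
      rw [h1]
      exact SC_smul T' c hc (hr b).1
  · intro m m' h
    symm
    refine hi m' m fun k => ?_
    obtain ⟨c, hc, hcx⟩ := h k
    refine ⟨c, hc, fun i => ?_⟩
    by_cases hki : i < n k + 1
    · have h2 := hcx ⟨i, hki⟩
      rw [hre, hre] at h2
      exact h2
    · rw [hz m' k i (by omega), hz m k i (by omega), mul_zero]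

theorem sph_unweight {d : ℕ} (n : Fin d → ℕ) (T : Ten (Fin d)) (δ : ℝ) (hδ : 0 < δ) (h : Sph n T δ) :
    Sph n (fun ι => T ι * Real.sqrt δ ^ (∑ k, ι k)) 1 := by
  obtain ⟨N, r, hN, hr, hcov, hsep⟩ := h
  have hW := E06 basics
  set ρ : ℝ := Real.sqrt δ with hρ
  have hρ0 : 0 < ρ := Real.sqrt_pos.2 hδ
  have hρ2 : ρ ^ 2 = δ := Real.sq_sqrt hδ.le
  have hρc : (ρ : ℂ) ≠ 0 := by exact_mod_cast hρ0.ne'
  let r' : Fin N → Vec (Fin d) := fun b k i => ((ρ : ℂ) ^ i)⁻¹ * r b k i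
  have key : ∀ b, (fun k i => (ρ : ℂ) ^ i * r' b k i) = r b := by
    intro b
    funext k i
    simp only [r']
    rw [← mul_assoc, mul_inv_cancel₀ (pow_ne_zero _ hρc), one_mul]
  have hPrp : ∀ x y : Vec (Fin d), Prp (fun k i => (ρ : ℂ) ^ i * x k i) (fun k i => (ρ : ℂ) ^ i * y k i) ↔ Prp x y := by
    intro x y
    unfold Prp
    refine forall_congr' fun k => exists_congr fun c => and_congr_right fun _ => forall_congr' fun i => ?_
    constructor
    · intro h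
      have h' : (ρ : ℂ) ^ i * x k i = c * ((ρ : ℂ) ^ i * y k i) := h
      have : (ρ : ℂ) ^ i * x k i = (ρ : ℂ) ^ i * (c * y k i) := by rw [h']; ring
      exact mul_left_cancel₀ (pow_ne_zero _ hρc) this
    · intro h
      show (ρ : ℂ) ^ i * x k i = c * ((ρ : ℂ) ^ i * y k i)
      rw [h]; ring
  refine ⟨N, r', hN, ?_, ?_, ?_⟩
  · intro b
    refine ⟨?_, ?_⟩
    · rw [← hW (Fin d) n T ρ (r' b) hρ0, key, hρ2]
      exact (hr b).1
    · intro k i
      have h2 := (hr b).2 k i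
      have : r' b k i = (((ρ ^ i)⁻¹ : ℝ) : ℂ) * r b k i := by
        simp [r']
      rw [this, Complex.im_ofReal_mul, h2, mul_zero]
  · intro x hx
    rw [← hW (Fin d) n T ρ x hρ0, hρ2] at hx
    obtain ⟨b, hb⟩ := hcov _ hx
    refine ⟨b, ?_⟩
    rw [← key b, hPrp] at hb
    exact hb
  · intro b b' h
    apply hsep
    rw [← key b, ← key b', hPrp]
    exact h

/-- the family of tensors with varying entries in the box. -/
noncomputable def tn {d : ℕ} (n : Fin d → ℕ) (T : Ten (Fin d)) (S : (∀ i : Fin d, Fin (n i + 1)) → ℝ) :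
    Ten (Fin d) := fun ι =>
  if h : ∀ k, ι k < n k + 1 then S (fun k => ⟨ι k, h k⟩) else T ι

theorem tn_base {d : ℕ} (n : Fin d → ℕ) (T : Ten (Fin d)) :
    tn n T (fun ι => T (fun k => (ι k : ℕ))) = T := by
  funext ι
  unfold tn
  split_ifs with h
  · rfl
  · rfl

theorem tn_cd {d : ℕ} (n : Fin d → ℕ) (T : Ten (Fin d)) (ι : Fin d → ℕ) :
    ContDiff ℝ 1 (fun q : ℝ × ((∀ i : Fin d, Fin (n i + 1)) → ℝ) => tn n T q.2 ι) := by
  unfold tn
  split_ifs with h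
  · exact (contDiff_apply ℝ ℝ _).comp contDiff_snd
  · exact contDiff_const

theorem PP_fin : ∀ d : ℕ, PP (Fin d) :=
  PP_all (P0 basics) (P1 basics) (P2 basics)
      (A14 (A12 (A09 basics C2 (A03 basics A01) (A04 basics A01) (A05 basics A01)
          (A06 basics A01 (A02 A01)) A07 (A08 basics (A00 basics) A01 (A02 A01)))
        (A10 basics A01) (A11 basics A01)) A13)
      PR
      (D12 (D11 basics C3 (D08 basics D01 D02 (D03 basics D02))
        (D09 basics (D00 basics) D01 D02 (D04 basics D02) (D05 basics D01 D02) (D06 basics D01 D02)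
          (D07 basics (D00 basics) D01 D02))
        (D10 basics D02 (D05 basics D01 D02))))

theorem good_mono {κ : Type} [Fintype κ] [DecidableEq κ] {m n : κ → ℕ} (h : m ≤ n) {T : Ten κ}
    (hT : Good n T) : Good m T := fun m' hm' => hT m' (hm'.trans h)

/-- an open set of tensors all of whose leading subtensors have only weighted singular tuples
that are real, with one weight. -/
theorem weighted_open (d : ℕ) (n : Fin d → ℕ) :
    ∃ (T : Ten (Fin d)) (δ : ℝ) (v : Set ((∀ i : Fin d, Fin (n i + 1)) → ℝ)), 0 < δ ∧ IsOpen v ∧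
      v.Nonempty ∧ ∀ S ∈ v, ∀ m : Fin d → ℕ, m ≤ n → Sph m (tn n T S) δ := by
  classical
  obtain ⟨T, hT⟩ := PP_fin d n
  have hbox : ∀ m : Fin d → ℕ, m ∈ H919S.box n ↔ m ≤ n := by
    intro m
    unfold H919S.box
    rw [Fintype.mem_piFinset]
    simp only [Finset.mem_range, Nat.lt_succ_iff]
    rfl
  set T₀ : (∀ i : Fin d, Fin (n i + 1)) → ℝ := fun ι => T (fun k => (ι k : ℕ)) with hT₀
  have h1 : ∀ m ∈ H919S.box n, ∀ᶠ q in 𝓝 ((0 : ℝ), T₀), 0 < q.1 → Sph m (tn n T q.2) q.1 := by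
    intro m hm
    refine sph_nhds ((0 : ℝ), T₀) (fun q => tn n T q.2) (tn_cd n T) (fun q => q.1) contDiff_fst rfl m ?_
    show Good m (tn n T T₀)
    rw [hT₀, tn_base]
    exact good_mono ((hbox m).1 hm) hT
  have h2 : ∀ᶠ q in 𝓝 ((0 : ℝ), T₀), ∀ m ∈ H919S.box n, 0 < q.1 → Sph m (tn n T q.2) q.1 :=
    (Filter.eventually_all_finset _).2 h1
  rw [nhds_prod_eq, Filter.eventually_prod_iff] at h2
  obtain ⟨pa, hpa, pb, hpb, hab⟩ := h2
  have h3 : ∀ᶠ δ in 𝓝[>] (0 : ℝ), pa δ ∧ 0 < δ :=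
    (hpa.filter_mono nhdsWithin_le_nhds).and self_mem_nhdsWithin
  obtain ⟨δ, hδa, hδ⟩ := h3.exists
  obtain ⟨v, hv1, hv2, hv3⟩ := mem_nhds_iff.1 hpb
  refine ⟨T, δ, v, hδ, hv2, ⟨T₀, hv3⟩, ?_⟩
  intro S hS m hm
  exact hab hδa (hv1 hS) m ((hbox m).2 hm) hδ

/-- the open set. -/
theorem open_set (d : ℕ) (n : Fin d → ℕ) :
    ∃ U : Set ((∀ i : Fin d, Fin (n i + 1)) → ℝ), IsOpen U ∧ U.Nonempty ∧
      ∀ T ∈ U, ∀ (m : Fin d → ℕ) (h : m ≤ n), FullyReal m (lead h T) := by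
  obtain ⟨T, δ, v, hδ, hv, ⟨S₀, hS₀⟩, hall⟩ := weighted_open d n
  have hρ0 : 0 < Real.sqrt δ := Real.sqrt_pos.2 hδ
  set ρ : ℝ := Real.sqrt δ with hρ
  refine ⟨{S' | (fun ι : (∀ i : Fin d, Fin (n i + 1)) => S' ι * (ρ ^ (∑ k, (ι k : ℕ)))⁻¹) ∈ v}, ?_, ?_, ?_⟩
  · refine hv.preimage ?_
    exact continuous_pi fun ι => (continuous_apply ι).mul continuous_const
  · refine ⟨fun ι => S₀ ι * ρ ^ (∑ k, (ι k : ℕ)), ?_⟩
    show (fun ι : (∀ i : Fin d, Fin (n i + 1)) =>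
      S₀ ι * ρ ^ (∑ k, (ι k : ℕ)) * (ρ ^ (∑ k, (ι k : ℕ)))⁻¹) ∈ v
    have : (fun ι : (∀ i : Fin d, Fin (n i + 1)) =>
      S₀ ι * ρ ^ (∑ k, (ι k : ℕ)) * (ρ ^ (∑ k, (ι k : ℕ)))⁻¹) = S₀ := by
      funext ι
      rw [mul_assoc, mul_inv_cancel₀ (pow_ne_zero _ hρ0.ne'), mul_one]
    rw [this]
    exact hS₀
  · intro S' hS' m hm
    have h1 := hall _ hS' m hm
    have h2 := fullyReal_of m _ (sph_unweight m _ δ hδ h1)
    convert h2 using 1
    funext ι
    have hlt : ∀ k, (ι k : ℕ) < n k + 1 := fun k => lt_of_lt_of_le (ι k).2 (Nat.succ_le_succ (hm k))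
    unfold lead tn
    rw [dif_pos hlt]
    rw [← hρ, mul_assoc]
    have h4 : (ρ ^ (∑ k, (ι k : ℕ)))⁻¹ * ρ ^ (∑ k, (ι k : ℕ)) = 1 :=
      inv_mul_cancel₀ (pow_ne_zero _ hρ0.ne')
    change _ = S' _ * ((ρ ^ (∑ k, (ι k : ℕ)))⁻¹ * ρ ^ (∑ k, (ι k : ℕ)))
    rw [h4, mul_one]
    rfl

/-- full reality does not change under scaling. -/
theorem FullyReal.smul {d : ℕ} {m : Fin d → ℕ} {T : (∀ i : Fin d, Fin (m i + 1)) → ℝ}
    (h : FullyReal m T) (c : ℝ) (hc : c ≠ 0) : FullyReal m (fun ι => c * T ι) := by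
  obtain ⟨N, r, h1, h2, h3⟩ := h
  refine ⟨N, r, h1, ?_, h3⟩
  intro x
  rw [← h2 x]
  refine and_congr_right fun _ => forall_congr' fun k => ?_
  have hcc : (c : ℂ) ≠ 0 := by exact_mod_cast hc
  have hs : ∀ j : Fin (m k + 1), ∑ ι : (∀ i : Fin d, Fin (m i + 1)),
      (if ι k = j then ((c * T ι : ℝ) : ℂ) * ∏ i ∈ Finset.univ.erase k, x i (ι i) else 0) =
      (c : ℂ) * ∑ ι : (∀ i : Fin d, Fin (m i + 1)),
      (if ι k = j then (T ι : ℂ) * ∏ i ∈ Finset.univ.erase k, x i (ι i) else 0) := by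
    intro j
    rw [Finset.mul_sum]
    refine Finset.sum_congr rfl fun ι _ => ?_
    split_ifs
    · push_cast; ring
    · rw [mul_zero]
  simp only [hs]
  constructor
  · rintro ⟨l, hl⟩
    refine ⟨(c : ℂ)⁻¹ * l, fun j => ?_⟩
    rw [mul_assoc, ← hl j, inv_mul_cancel_left₀ hcc]
  · rintro ⟨l, hl⟩
    refine ⟨(c : ℂ) * l, fun j => ?_⟩
    rw [hl j, mul_assoc]

/-- an integer tensor. -/
theorem integer_tensor (d : ℕ) (n : Fin d → ℕ) :
    ∃ T : (∀ i : Fin d, Fin (n i + 1)) → ℤ,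
      ∀ (m : Fin d → ℕ) (h : m ≤ n), FullyReal m (lead h fun ι => (T ι : ℝ)) := by
  obtain ⟨U, hU, ⟨T₀, hT₀⟩, hall⟩ := open_set d n
  obtain ⟨ε, hε, hball⟩ := Metric.isOpen_iff.1 hU T₀ hT₀
  have hq : ∀ ι, ∃ q : ℚ, |T₀ ι - q| < ε := fun ι => exists_rat_near (T₀ ι) hε
  choose q hq using hq
  have hmem : (fun ι => (q ι : ℝ)) ∈ U := by
    apply hball
    rw [Metric.mem_ball, dist_pi_lt_iff hε]
    intro ι
    rw [dist_comm, Real.dist_eq]
    exact hq ι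
  set D : ℕ := ∏ ι, (q ι).den with hD
  have hD0 : D ≠ 0 := Finset.prod_ne_zero_iff.2 fun ι _ => (q ι).den_nz
  have hint : ∀ ι, ∃ z : ℤ, (z : ℝ) = (D : ℝ) * (q ι : ℝ) := by
    intro ι
    have hdvd : (q ι).den ∣ D := Finset.dvd_prod_of_mem _ (Finset.mem_univ ι)
    obtain ⟨w, hw⟩ := hdvd
    refine ⟨(w : ℤ) * (q ι).num, ?_⟩
    have h1 : ((q ι : ℚ) : ℝ) * ((q ι).den : ℝ) = ((q ι).num : ℝ) := by
      have := Rat.mul_den_eq_num (q ι)
      exact_mod_cast this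
    rw [hw]
    push_cast
    rw [← h1]
    ring
  choose z hz using hint
  refine ⟨z, fun m h => ?_⟩
  have h1 := (hall _ hmem m h).smul (D : ℝ) (by exact_mod_cast hD0)
  have h2 : (lead h fun ι => (z ι : ℝ)) = fun ι => (D : ℝ) * lead h (fun ι => (q ι : ℝ)) ι := by
    funext ι
    unfold lead
    exact hz _
  rw [h2]
  exact h1

end Pool.Agent.H75Ten
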